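import Pool.Agent.GHC.FieldExt

/-!
# Descent for subspaces stable under all endomorphisms of the field `ℂ`
-/

set_option autoImplicit false

namespace Pool.Agent.GHCOdd

open Pool.Agent.GHC in
/-- Moving a transcendence basis of `ℂ` to any algebraically independent family. -/
theorem exists_extension_basis {T : Type} {x : T → ℂ} (hx : IsTranscendenceBasis ℚ x)
    {y : T → ℂ} (hy : AlgebraicIndependent ℚ y) :
    ∃ σ : ℂ →+* ℂ, ∀ t, σ (x t) = y t := by
  let x' : T → CC := y
  have h3 : AlgebraicIndependent ℚ x' := by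
    have key : ∀ p : MvPolynomial T ℚ, MvPolynomial.aeval x' p = (MvPolynomial.aeval y p : ℂ) := by
      intro p
      induction p using MvPolynomial.induction_on with
      | C a =>
        rw [MvPolynomial.aeval_C, MvPolynomial.aeval_C]
        simp only [eq_ratCast]
        rfl
      | add p q hp hq =>
        rw [_root_.map_add, _root_.map_add, hp, hq]
        rfl
      | mul_X p i hp =>
        rw [map_mul, map_mul, hp, MvPolynomial.aeval_X, MvPolynomial.aeval_X]
        rfl
    intro p q hpq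
    apply hy
    rw [← key, ← key]
    exact hpq
  let S := Algebra.adjoin ℚ (Set.range x)
  let φ : S →+* CC := (MvPolynomial.aeval (R := ℚ) x').toRingHom.comp
    (hx.1.aevalEquiv.symm : S →+* MvPolynomial T ℚ)
  have hφ : Function.Injective φ := by
    intro a b hab
    exact hx.1.aevalEquiv.symm.injective (h3 hab)
  let : Algebra S CC := φ.toAlgebra
  have f2 : FaithfulSMul S CC := (faithfulSMul_iff_algebraMap_injective _ _).mpr hφ
  have halg : Algebra.IsAlgebraic S ℂ := hx.isAlgebraic
  let g : ℂ →ₐ[S] CC := IsAlgClosed.lift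
  refine ⟨g.toRingHom, fun t => ?_⟩
  have hmem : x t ∈ S := Algebra.subset_adjoin (Set.mem_range_self t)
  have h5 := g.commutes (⟨x t, hmem⟩ : S)
  have h6 : algebraMap S CC (⟨x t, hmem⟩ : S) = x' t := by
    change MvPolynomial.aeval (R := ℚ) x' (hx.1.aevalEquiv.symm ⟨x t, hmem⟩) = x' t
    have h7 : hx.1.aevalEquiv (MvPolynomial.X t) = (⟨x t, hmem⟩ : S) := by
      apply Subtype.ext
      exact (hx.1.algebraMap_aevalEquiv _).trans (MvPolynomial.aeval_X _ _)
    rw [← h7, AlgEquiv.symm_apply_apply, MvPolynomial.aeval_X]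
  rw [h6] at h5
  exact h5

theorem exists_moved_of_transcendental {x : ℂ} (hx : Transcendental ℚ x) :
    ∃ σ : ℂ →+* ℂ, σ x ≠ x := by
  classical
  have h0 : AlgebraicIndepOn ℚ id ({x} : Set ℂ) := by
    have : AlgebraicIndependent ℚ (fun i : ({x} : Set ℂ) => (i : ℂ)) := by
      have : Unique ({x} : Set ℂ) := Set.uniqueSingleton x
      rw [algebraicIndependent_unique_type_iff]
      have h1 : ((default : ({x} : Set ℂ)) : ℂ) = x := Set.mem_singleton_iff.mp (default : ({x} : Set ℂ)).2
      rw [h1]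
      exact hx
    exact this
  obtain ⟨t, hxt, ht⟩ := exists_isTranscendenceBasis_superset h0
  have hcard : Cardinal.mk ℂ = Cardinal.mk t := by
    refine IsAlgClosed.cardinal_eq_cardinal_transcendence_basis_of_aleph0_lt'
      (R := ℚ) (Subtype.val : t → ℂ) ht ?_ ?_
    · exact Cardinal.mk_le_aleph0
    · rw [Cardinal.mk_complex]
      exact Cardinal.aleph0_lt_continuum
  have hinf : Infinite t := by
    rw [Cardinal.infinite_iff, ← hcard, Cardinal.mk_complex]
    exact Cardinal.aleph0_le_continuum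
  let x0 : t := ⟨x, hxt (Set.mem_singleton x)⟩
  obtain ⟨y0, hy0⟩ := exists_ne x0
  have hswap : AlgebraicIndependent ℚ ((Subtype.val : t → ℂ) ∘ (Equiv.swap x0 y0)) :=
    ht.1.comp _ (Equiv.swap x0 y0).injective
  obtain ⟨σ, hσ⟩ := exists_extension_basis ht hswap
  refine ⟨σ, fun h => hy0 ?_⟩
  have h2 := hσ x0
  have h3 : ((Subtype.val : t → ℂ) ∘ (Equiv.swap x0 y0)) x0 = y0 := by
    rw [Function.comp_apply, Equiv.swap_apply_left]
  rw [h3] at h2
  have h4 : σ x = (y0 : ℂ) := h2
  rw [h] at h4
  exact Subtype.ext h4.symm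

theorem exists_moved_of_algebraic {x : ℂ} (hx : IsAlgebraic ℚ x) (hq : ¬ ∃ q : ℚ, x = q) :
    ∃ σ : ℂ →+* ℂ, σ x ≠ x := by
  have hint : IsIntegral ℚ x := hx.isIntegral
  have hne : minpoly ℚ x ≠ 0 := minpoly.ne_zero hint
  have hdeg : 2 ≤ (minpoly ℚ x).natDegree := by
    by_contra hcon
    have h1 : (minpoly ℚ x).natDegree = 1 := by
      have := minpoly.natDegree_pos hint
      omega
    rw [minpoly.natDegree_eq_one_iff] at h1
    obtain ⟨q, hq'⟩ := h1
    exact hq ⟨q, by rw [← hq']; rfl⟩
  have hsep : (minpoly ℚ x).Separable := (minpoly.irreducible hint).separable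
  have hcard : Fintype.card ((minpoly ℚ x).rootSet ℂ) = (minpoly ℚ x).natDegree :=
    Polynomial.card_rootSet_eq_natDegree hsep (IsAlgClosed.splits _)
  have hx1 : x ∈ (minpoly ℚ x).rootSet ℂ :=
    (Polynomial.mem_rootSet).mpr ⟨hne, minpoly.aeval ℚ x⟩
  have hnt : Nontrivial ((minpoly ℚ x).rootSet ℂ) := by
    rw [← Fintype.one_lt_card_iff_nontrivial, hcard]
    omega
  obtain ⟨y, hy⟩ := exists_ne (⟨x, hx1⟩ : (minpoly ℚ x).rootSet ℂ)
  have hyroot : Polynomial.aeval (y : ℂ) (minpoly ℚ x) = 0 := (Polynomial.mem_rootSet.mp y.2).2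
  let f : IntermediateField.adjoin ℚ {x} →ₐ[ℚ] ℂ :=
    (IntermediateField.algHomAdjoinIntegralEquiv ℚ hint).symm
      ⟨y, Polynomial.mem_aroots.mpr ⟨hne, hyroot⟩⟩
  have hf : f (IntermediateField.AdjoinSimple.gen ℚ x) = y :=
    IntermediateField.algHomAdjoinIntegralEquiv_symm_apply_gen ℚ hint _
  have h2 : Algebra.IsAlgebraic ℚ (IntermediateField.adjoin ℚ {x}) :=
    IntermediateField.isAlgebraic_adjoin_simple hint
  obtain ⟨σ, hσ⟩ := Pool.Agent.GHC.exists_extension
    (K := IntermediateField.adjoin ℚ {x}) f.toRingHom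
  refine ⟨σ, fun h => hy ?_⟩
  have h4 := hσ (IntermediateField.AdjoinSimple.gen ℚ x)
  change σ _ = f _ at h4
  rw [hf, IntermediateField.AdjoinSimple.algebraMap_gen, h] at h4
  exact Subtype.ext h4.symm

/-- A complex number fixed by all endomorphisms of `ℂ` is rational. -/
theorem exists_rat_of_fixed (x : ℂ) (hx : ∀ σ : ℂ →+* ℂ, σ x = x) : ∃ q : ℚ, x = q := by
  by_contra hcon
  by_cases halg : IsAlgebraic ℚ x
  · obtain ⟨σ, hσ⟩ := exists_moved_of_algebraic halg hcon
    exact hσ (hx σ)
  · obtain ⟨σ, hσ⟩ := exists_moved_of_transcendental (x := x) halg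
    exact hσ (hx σ)

/-- A subspace of `ℂ^M` stable under all endomorphisms of `ℂ` is spanned by its rational
vectors. -/
theorem descent {M : Type*} [Fintype M] (U : Submodule ℂ (M → ℂ))
    (hU : ∀ σ : ℂ →+* ℂ, ∀ u ∈ U, (fun m => σ (u m)) ∈ U) :
    U ≤ Submodule.span ℂ {u | u ∈ U ∧ ∀ m, ∃ q : ℚ, u m = q} := by
  classical
  let supp : (M → ℂ) → Finset M := fun u => Finset.univ.filter (fun m => u m ≠ 0)
  have hsupp : ∀ (u : M → ℂ) (m : M), m ∈ supp u ↔ u m ≠ 0 := by
    intro u m
    simp only [supp, Finset.mem_filter, Finset.mem_univ, true_and]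
  suffices H : ∀ (k : ℕ) (u : M → ℂ), u ∈ U → (supp u).card = k →
      u ∈ Submodule.span ℂ {u | u ∈ U ∧ ∀ m, ∃ q : ℚ, u m = q} from
    fun u hu => H _ u hu rfl
  intro k
  induction k using Nat.strong_induction_on with
  | _ k ih =>
    intro u hu hk
    by_cases hu0 : u = 0
    · rw [hu0]
      exact Submodule.zero_mem _
    -- a nonzero vector of minimal support inside the support of `u`
    let P : ℕ → Prop := fun j => ∃ r ∈ U, r ≠ 0 ∧ supp r ⊆ supp u ∧ (supp r).card = j
    have hP : ∃ j, P j := ⟨_, u, hu, hu0, Finset.Subset.refl _, rfl⟩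
    obtain ⟨r, hrU, hr0, hrs, hrc⟩ := Nat.find_spec hP
    have hmin : ∀ s ∈ U, supp s ⊆ supp u → (supp s).card < (supp r).card → s = 0 := by
      intro s hs hss hsc
      by_contra hs0
      rw [hrc] at hsc
      exact Nat.find_min hP hsc ⟨s, hs, hs0, hss, rfl⟩
    have hex : ∃ m0, r m0 ≠ 0 := by
      by_contra hcon
      push Not at hcon
      exact hr0 (funext hcon)
    obtain ⟨m0, hm0⟩ := hex
    have hm0u : m0 ∈ supp u := hrs ((hsupp r m0).mpr hm0)
    let r' : M → ℂ := (r m0)⁻¹ • r
    have hr'U : r' ∈ U := U.smul_mem _ hrU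
    have hr'0 : r' m0 = 1 := by
      change (r m0)⁻¹ * r m0 = 1
      exact inv_mul_cancel₀ hm0
    have hr's : ∀ m, r m = 0 → r' m = 0 := by
      intro m hm
      change (r m0)⁻¹ * r m = 0
      rw [hm, mul_zero]
    have hrat : ∀ m, ∃ q : ℚ, r' m = q := by
      intro m
      apply exists_rat_of_fixed
      intro σ
      have h1 : (fun m => σ (r' m)) - r' ∈ U := U.sub_mem (hU σ r' hr'U) hr'U
      have h2 : supp ((fun m => σ (r' m)) - r') ⊆ (supp r).erase m0 := by
        intro m hm
        rw [hsupp] at hm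
        rw [Finset.mem_erase, hsupp]
        refine ⟨?_, ?_⟩
        · rintro rfl
          apply hm
          change σ (r' m) - r' m = 0
          rw [hr'0, map_one, sub_self]
        · intro h
          apply hm
          change σ (r' m) - r' m = 0
          rw [hr's m h, map_zero, sub_self]
      have h3 : (fun m => σ (r' m)) - r' = 0 := by
        refine hmin _ h1 (h2.trans ((Finset.erase_subset _ _).trans hrs)) ?_
        exact (Finset.card_le_card h2).trans_lt
          (Finset.card_erase_lt_of_mem ((hsupp r m0).mpr hm0))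
      exact sub_eq_zero.mp (congrFun h3 m)
    have hspan : r' ∈ Submodule.span ℂ {u | u ∈ U ∧ ∀ m, ∃ q : ℚ, u m = q} :=
      Submodule.subset_span ⟨hr'U, hrat⟩
    have hv : u - u m0 • r' ∈ U := U.sub_mem hu (U.smul_mem _ hr'U)
    have hvs : supp (u - u m0 • r') ⊆ (supp u).erase m0 := by
      intro m hm
      rw [hsupp] at hm
      rw [Finset.mem_erase, hsupp]
      refine ⟨?_, ?_⟩
      · rintro rfl
        apply hm
        change u m - u m * r' m = 0
        rw [hr'0, mul_one, sub_self]
      · intro h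
        apply hm
        have hrm : r m = 0 := by
          by_contra hrm
          exact ((hsupp u m).mp (hrs ((hsupp r m).mpr hrm))) h
        change u m - u m0 * r' m = 0
        rw [hr's m hrm, h, mul_zero, sub_self]
    have hlt : (supp (u - u m0 • r')).card < k := by
      rw [← hk]
      exact (Finset.card_le_card hvs).trans_lt (Finset.card_erase_lt_of_mem hm0u)
    have h5 := ih _ hlt _ hv rfl
    have h6 : u = (u - u m0 • r') + u m0 • r' := (sub_add_cancel _ _).symm
    rw [h6]
    exact Submodule.add_mem _ h5 (Submodule.smul_mem _ _ hspan)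

end Pool.Agent.GHCOdd
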